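import Mathlib

set_option autoImplicit false

/-!
`S₁(Γ_g, O)` against `S₁(Γ_g, Fin-Λ)`: if the sum `X × ℕ` of countably many copies of `X` satisfies
`S₁(Γ_g, O)` then `X` satisfies `S₁(Γ_g, Fin-Λ)`.
-/

namespace Pool.Agent.Results.MP_46bd4a_lc.CountableSums

open Filter Set

/-- `V` is an element of `Γ_g(X)`: a double sequence of open sets such that every point of `X` is
missed by at most `g n` of the sets `V n m`, `m ∈ ℕ`. -/
def IsInput (X : Type) [TopologicalSpace X] (g : ℕ → ℕ) (V : ℕ → ℕ → Set X) : Prop :=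
  (∀ n m, IsOpen (V n m)) ∧ ∀ n x, {m | x ∉ V n m}.encard ≤ (g n : ℕ∞)

/-- `S₁(Γ_g, O)`. -/
def S1O (X : Type) [TopologicalSpace X] (g : ℕ → ℕ) : Prop :=
  ∀ V, IsInput X g V → ∃ d : ℕ → ℕ, ∀ x, ∃ n, x ∈ V n (d n)

/-- `S₁(Γ_g, Fin-Λ)`: the selected sets cover every point infinitely often. -/
def S1L (X : Type) [TopologicalSpace X] (g : ℕ → ℕ) : Prop :=
  ∀ V, IsInput X g V → ∃ d : ℕ → ℕ, ∀ x, ∃ᶠ n in atTop, x ∈ V n (d n)

theorem sum_to_large {g : ℕ → ℕ} (hg : ∀ n, 1 ≤ g n) (X : Type) [TopologicalSpace X]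
    (h : S1O (X × ℕ) g) : S1L X g := by
  classical
  rintro V ⟨hV1, hV2⟩
  let s : ℕ → List ℕ := fun i => Denumerable.ofNat (List ℕ) i
  let W : ℕ → ℕ → Set (X × ℕ) := fun n m =>
    {p | (n < (s p.2).length → (s p.2)[n]? ≠ some m) ∧ ((s p.2).length ≤ n → p.1 ∈ V n m)}
  have hW : IsInput (X × ℕ) g W := by
    refine ⟨fun n m => ?_, ?_⟩
    · rw [isOpen_iff_forall_mem_open]
      rintro ⟨x, i⟩ hp
      by_cases hi : n < (s i).length
      · refine ⟨univ ×ˢ {i}, ?_, isOpen_univ.prod (isOpen_discrete _), by simp⟩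
        rintro ⟨y, j⟩ hj
        have hj : j = i := by simpa using hj
        subst hj
        exact ⟨hp.1, fun hh => absurd hi (not_lt.2 hh)⟩
      · refine ⟨V n m ×ˢ {i}, ?_, (hV1 n m).prod (isOpen_discrete _), ?_⟩
        · rintro ⟨y, j⟩ ⟨hy, hj⟩
          have hj : j = i := by simpa using hj
          subst hj
          exact ⟨fun hh => absurd hh hi, fun _ => hy⟩
        · exact ⟨hp.2 (not_lt.1 hi), rfl⟩
    · rintro n ⟨x, i⟩
      by_cases hi : n < (s i).length
      · have h1 : {m | (x, i) ∉ W n m} ⊆ {(s i)[n]} := by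
          intro m hm
          by_contra hne
          apply hm
          refine ⟨fun _ hh => hne ?_, fun hh => absurd hi (not_lt.2 hh)⟩
          rw [List.getElem?_eq_getElem hi] at hh
          exact (Option.some.inj hh).symm
        refine (encard_le_encard h1).trans ?_
        rw [encard_singleton]
        exact_mod_cast hg n
      · have h1 : {m | (x, i) ∉ W n m} ⊆ {m | x ∉ V n m} := by
          intro m hm hx
          exact hm ⟨fun hh => absurd hh hi, fun _ => hx⟩
        exact (encard_le_encard h1).trans (hV2 n x)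
  obtain ⟨d, hd⟩ := h W hW
  refine ⟨d, fun x => ?_⟩
  rw [frequently_atTop]
  intro N
  obtain ⟨n, hn⟩ := hd (x, Encodable.encode ((List.range N).map d))
  have hs : s (Encodable.encode ((List.range N).map d)) = (List.range N).map d :=
    Denumerable.ofNat_encode _
  have hn' : (n < ((List.range N).map d).length → ((List.range N).map d)[n]? ≠ some (d n)) ∧
      (((List.range N).map d).length ≤ n → x ∈ V n (d n)) := by
    have := hn
    simp only [W, mem_ofPred_eq, hs] at this
    exact this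
  have hlen : ((List.range N).map d).length = N := by simp
  rw [hlen] at hn'
  by_cases hnN : n < N
  · exfalso
    apply hn'.1 hnN
    simp [hnN]
  · exact ⟨n, not_lt.1 hnN, hn'.2 (not_lt.1 hnN)⟩

theorem image_closed {g : ℕ → ℕ} (X Y : Type) [TopologicalSpace X] [TopologicalSpace Y]
    {F : Set X} (hF : IsClosed F) {f : F → Y} (hf : Continuous f) (hs : Function.Surjective f)
    (h : S1O X g) : S1O Y g := by
  rintro W ⟨hW1, hW2⟩
  obtain ⟨d, hd⟩ := h (fun n m => (Subtype.val '' (f ⁻¹' W n m)ᶜ)ᶜ) (by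
    refine ⟨fun n m => ?_, fun n x => ?_⟩
    · rw [isOpen_compl_iff]
      exact hF.isClosedEmbedding_subtypeVal.isClosedMap _
        ((hW1 n m).preimage hf).isClosed_compl
    · by_cases hx : x ∈ F
      · have h1 : {m | x ∉ (Subtype.val '' (f ⁻¹' W n m)ᶜ)ᶜ} ⊆ {m | f ⟨x, hx⟩ ∉ W n m} := by
          intro m hm
          simp only [mem_ofPred_eq, mem_compl_iff, not_not, mem_image] at hm
          obtain ⟨⟨y, hy⟩, h2, h3⟩ := hm
          simp only at h3
          subst h3
          exact h2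
        exact (encard_le_encard h1).trans (hW2 n _)
      · have h1 : {m | x ∉ (Subtype.val '' (f ⁻¹' W n m)ᶜ)ᶜ} = ∅ := by
          ext m
          simp only [mem_ofPred_eq, mem_compl_iff, not_not, mem_image, mem_empty_iff_false,
            iff_false]
          rintro ⟨⟨y, hy⟩, -, h3⟩
          simp only at h3
          subst h3
          exact hx hy
        rw [h1]
        simp)
  refine ⟨d, fun y => ?_⟩
  obtain ⟨⟨x, hx⟩, rfl⟩ := hs y
  obtain ⟨n, hn⟩ := hd x
  refine ⟨n, ?_⟩
  by_contra hcon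
  exact hn ⟨⟨x, hx⟩, hcon, rfl⟩

theorem large_to_cover {g : ℕ → ℕ} (X : Type) [TopologicalSpace X] (h : S1L X g) : S1O X g := by
  intro V hV
  obtain ⟨d, hd⟩ := h V hV
  exact ⟨d, fun x => (hd x).exists⟩

/-- Let `g n ≥ 1` for all `n`. If the sum `X × ℕ` of countably many copies of a space `X` satisfies
`S₁(Γ_g, O)`, then `X` satisfies `S₁(Γ_g, Fin-Λ)`. Consequently `S₁(Γ_g, O)` and `S₁(Γ_g, Fin-Λ)` are
equivalent for every space `X` such that `X × ℕ` is a continuous image of a closed subspace of `X`. -/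
theorem result (g : ℕ → ℕ) (hg : ∀ n, 1 ≤ g n) (X : Type) [TopologicalSpace X] :
    (S1O (X × ℕ) g → S1L X g) ∧
    ((∃ (F : Set X) (f : F → X × ℕ), IsClosed F ∧ Continuous f ∧ Function.Surjective f) →
      (S1O X g ↔ S1L X g)) := by
  refine ⟨sum_to_large hg X, ?_⟩
  rintro ⟨F, f, hF, hf, hs⟩
  exact ⟨fun h => sum_to_large hg X (image_closed X (X × ℕ) hF hf hs h), large_to_cover X⟩

end Pool.Agent.Results.MP_46bd4a_lc.CountableSums
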