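import Mathlib

/-!
# The principles `S_1(Γ_g, O)` and `S_1(Γ_g, Fin-Λ)` on self-similar spaces
-/

namespace Pool.Agent.Results.MP_46bd4a_lc.SelfSimilarSpaces

open Set Topology Filter

universe u w

/-- The double sequences `Γ_g(X)`: open sets such that every point is missed by at most `g n`
members of the `n`-th row. -/
def GammaG {X : Type u} [TopologicalSpace X] (g : ℕ → ℕ) (V : ℕ → ℕ → Set X) : Prop :=
  (∀ n m, IsOpen (V n m)) ∧ ∀ x n, {m | x ∉ V n m}.encard ≤ (g n : ℕ∞)

/-- The principle `S_1(Γ_g, O)`. -/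
def SOneO (X : Type u) [TopologicalSpace X] (g : ℕ → ℕ) : Prop :=
  ∀ V : ℕ → ℕ → Set X, GammaG g V → ∃ d : ℕ → ℕ, ∀ x, ∃ n, x ∈ V n (d n)

/-- The principle `S_1(Γ_g, Fin-Λ)`. -/
def SOneLarge (X : Type u) [TopologicalSpace X] (g : ℕ → ℕ) : Prop :=
  ∀ V : ℕ → ℕ → Set X, GammaG g V → ∃ d : ℕ → ℕ, ∀ x, {n | x ∈ V n (d n)}.Infinite

/-- A discrete family of closed sets `F j k` with maps `f j k`, continuous on `F j k`, such that
for every `j` the images of the sets `F j k` cover the space. -/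
structure SelfSimilar (X : Type u) [TopologicalSpace X] {K : Type w} (F : ℕ → K → Set X)
    (f : ℕ → K → X → X) : Prop where
  closed : ∀ j k, IsClosed (F j k)
  cont : ∀ j k, ContinuousOn (f j k) (F j k)
  disj : ∀ j k j' k' y, y ∈ F j k → y ∈ F j' k' → j = j' ∧ k = k'
  locfin : LocallyFinite (fun p : ℕ × K => F p.1 p.2)
  cover : ∀ j x, ∃ k, ∃ y ∈ F j k, f j k y = x

/-- The list coded by `j`. -/
noncomputable def code (j : ℕ) : List ℕ := Denumerable.ofNat (List ℕ) j

/-- Membership condition on the piece with index `(j, k)`. -/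
def Good {X : Type u} {K : Type w} (V : ℕ → ℕ → Set X) (f : ℕ → K → X → X) (j : ℕ) (k : K)
    (n m : ℕ) (y : X) : Prop :=
  if n < (code j).length then m ≠ (code j).getD n 0 else f j k y ∈ V n m

/-- The auxiliary double sequence. -/
def aux {X : Type u} {K : Type w} (V : ℕ → ℕ → Set X) (F : ℕ → K → Set X) (f : ℕ → K → X → X)
    (n m : ℕ) : Set X :=
  (⋃ p : ℕ × K, {y | y ∈ F p.1 p.2 ∧ ¬ Good V f p.1 p.2 n m y})ᶜ

theorem mem_aux {X : Type u} {K : Type w} (V : ℕ → ℕ → Set X) (F : ℕ → K → Set X)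
    (f : ℕ → K → X → X)
    (n m : ℕ) (y : X) :
    y ∈ aux V F f n m ↔ ∀ j k, y ∈ F j k → Good V f j k n m y := by
  simp only [aux, mem_compl_iff, mem_iUnion, mem_ofPred_eq, Prod.exists]
  push Not
  rfl

theorem isOpen_aux {X : Type u} [TopologicalSpace X] {g : ℕ → ℕ} {V : ℕ → ℕ → Set X}
    (hV : GammaG g V) {K : Type w} {F : ℕ → K → Set X} {f : ℕ → K → X → X} (hS : SelfSimilar X F f)
    (n m : ℕ) : IsOpen (aux V F f n m) := by
  rw [aux, isOpen_compl_iff]
  apply LocallyFinite.isClosed_iUnion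
  · exact hS.locfin.subset (fun p y hy => hy.1)
  · intro p
    by_cases hn : n < (code p.1).length
    · by_cases hm : m = (code p.1).getD n 0
      · have : {y | y ∈ F p.1 p.2 ∧ ¬ Good V f p.1 p.2 n m y} = F p.1 p.2 := by
          ext y
          simp only [Good, hn, if_true, mem_ofPred_eq, not_not, hm, and_true]
        rw [this]
        exact hS.closed _ _
      · have : {y | y ∈ F p.1 p.2 ∧ ¬ Good V f p.1 p.2 n m y} = ∅ := by
          ext y
          simp only [Good, hn, if_true, mem_ofPred_eq, not_not, hm, and_false, mem_empty_iff_false]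
        rw [this]
        exact isClosed_empty
    · have : {y | y ∈ F p.1 p.2 ∧ ¬ Good V f p.1 p.2 n m y} =
          F p.1 p.2 ∩ (f p.1 p.2) ⁻¹' (V n m)ᶜ := by
        ext y
        simp only [Good, hn, if_false, mem_ofPred_eq, mem_inter_iff, mem_preimage, mem_compl_iff]
      rw [this]
      exact (hS.cont _ _).preimage_isClosed_of_isClosed (hS.closed _ _)
        (hV.1 n m).isClosed_compl

theorem gamma_aux {X : Type u} [TopologicalSpace X] {g : ℕ → ℕ} (hg : ∀ n, 1 ≤ g n)
    {V : ℕ → ℕ → Set X}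
    (hV : GammaG g V) {K : Type w} {F : ℕ → K → Set X} {f : ℕ → K → X → X} (hS : SelfSimilar X F f) :
    GammaG g (aux V F f) := by
  refine ⟨isOpen_aux hV hS, fun y n => ?_⟩
  by_cases hy : ∃ j k, y ∈ F j k
  · obtain ⟨j, k, hjk⟩ := hy
    have key : ∀ m, y ∉ aux V F f n m ↔ ¬ Good V f j k n m y := by
      intro m
      rw [mem_aux]
      constructor
      · intro h hG
        apply h
        intro j' k' h'
        obtain ⟨rfl, rfl⟩ := hS.disj _ _ _ _ _ hjk h'
        exact hG
      · intro h h'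
        exact h (h' j k hjk)
    have hset : {m | y ∉ aux V F f n m} = {m | ¬ Good V f j k n m y} := by
      ext m
      exact key m
    rw [hset]
    by_cases hn : n < (code j).length
    · have : {m | ¬ Good V f j k n m y} = {(code j).getD n 0} := by
        ext m
        simp only [Good, hn, if_true, mem_ofPred_eq, not_not, mem_singleton_iff, ne_eq]
      rw [this, encard_singleton]
      exact_mod_cast hg n
    · have : {m | ¬ Good V f j k n m y} = {m | f j k y ∉ V n m} := by
        ext m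
        simp only [Good, hn, if_false, mem_ofPred_eq]
      rw [this]
      exact hV.2 _ _
  · have hset : {m | y ∉ aux V F f n m} = ∅ := by
      ext m
      simp only [mem_ofPred_eq, mem_empty_iff_false, iff_false, not_not]
      rw [mem_aux]
      intro j k h
      exact absurd ⟨j, k, h⟩ hy
    rw [hset]
    simp

/-- The principle for open covers gives the principle for large covers on self-similar spaces. -/
theorem large_of_selfSimilar {X : Type u} [TopologicalSpace X] {g : ℕ → ℕ}
    (hg : ∀ n, 1 ≤ g n) {K : Type w} {F : ℕ → K → Set X} {f : ℕ → K → X → X} (hS : SelfSimilar X F f)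
    (h : SOneO X g) : SOneLarge X g := by
  intro V hV
  obtain ⟨d, hd⟩ := h _ (gamma_aux hg hV hS)
  refine ⟨d, fun x => ?_⟩
  rw [Set.infinite_iff_exists_gt]
  intro N
  obtain ⟨k, y, hy, hyx⟩ := hS.cover (Encodable.encode ((List.range (N + 1)).map d)) x
  obtain ⟨n, hn⟩ := hd y
  rw [mem_aux] at hn
  have h1 := hn _ _ hy
  have hc : code (Encodable.encode ((List.range (N + 1)).map d)) = (List.range (N + 1)).map d := by
    simp [code]
  unfold Good at h1
  rw [hc] at h1
  have hlen : ((List.range (N + 1)).map d).length = N + 1 := by simp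
  rw [hlen] at h1
  by_cases hnN : n < N + 1
  · rw [if_pos hnN] at h1
    exfalso
    apply h1
    simp [List.getD, hnN]
  · rw [if_neg hnN] at h1
    refine ⟨n, ?_, by omega⟩
    rw [mem_ofPred_eq, ← hyx]
    exact h1

/-- Products with the countable discrete space are self-similar. -/
theorem selfSimilar_prod (X : Type u) [TopologicalSpace X] :
    SelfSimilar (X × ℕ) (K := ℕ) (fun j k => {y | y.2 = Nat.pair j k}) (fun _ k y => (y.1, k)) where
  closed j k := isClosed_singleton.preimage continuous_snd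
  cont j k := by fun_prop
  disj j k j' k' y h h' := by
    simp only [mem_ofPred_eq] at h h'
    have := h.symm.trans h'
    exact Nat.pair_eq_pair.1 this
  locfin := by
    intro y
    refine ⟨{z | z.2 = y.2}, ?_, ?_⟩
    · have : IsOpen {z : X × ℕ | z.2 = y.2} := (isOpen_discrete {y.2}).preimage continuous_snd
      exact this.mem_nhds rfl
    · apply Set.Finite.subset (Set.finite_singleton (Nat.unpair y.2))
      rintro ⟨a, b⟩ ⟨z, hz1, hz2⟩
      simp only [mem_ofPred_eq] at hz1 hz2
      rw [mem_singleton_iff, ← hz2, hz1, Nat.unpair_pair]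
  cover j x := ⟨x.2, (x.1, Nat.pair j x.2), rfl, rfl⟩

/-- `G` is covered by `κ` many left translates of each neighbourhood of `1`, and some
neighbourhood of `1` needs at least `κ` many left translates to cover `G`. -/
def Narrow (G : Type u) [Group G] [TopologicalSpace G] (κ : Cardinal.{u}) : Prop :=
  (∀ U ∈ 𝓝 (1 : G), ∃ C : Set G, Cardinal.mk C ≤ κ ∧ ∀ x, ∃ c ∈ C, c⁻¹ * x ∈ U) ∧
    ∃ U ∈ 𝓝 (1 : G), ∀ C : Set G, (∀ x, ∃ c ∈ C, c⁻¹ * x ∈ U) → κ ≤ Cardinal.mk C

theorem exists_selfSimilar_group (G : Type u) [Group G] [TopologicalSpace G]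
    [IsTopologicalGroup G] (κ : Cardinal.{u}) (hκ : Cardinal.aleph0 ≤ κ) (hG : Narrow G κ) :
    ∃ (K : Type u) (F : ℕ → K → Set G) (f : ℕ → K → G → G), SelfSimilar G F f := by
  obtain ⟨hcov, U₀, hU₀, hbig₀⟩ := hG
  -- symmetrize
  obtain ⟨U, hU, hUinv, hbig⟩ : ∃ U ∈ 𝓝 (1 : G), (∀ x ∈ U, x⁻¹ ∈ U) ∧
      ∀ C : Set G, (∀ x, ∃ c ∈ C, c⁻¹ * x ∈ U) → κ ≤ Cardinal.mk C := by
    refine ⟨U₀ ∩ U₀⁻¹, Filter.inter_mem hU₀ (inv_mem_nhds_one G hU₀), ?_, ?_⟩
    · rintro x ⟨h1, h2⟩
      exact ⟨h2, by simpa using h1⟩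
    · intro C hC
      refine hbig₀ C (fun x => ?_)
      obtain ⟨c, hc, hx⟩ := hC x
      exact ⟨c, hc, hx.1⟩
  -- maximal separated set
  obtain ⟨S, hS⟩ := zorn_subset {S : Set G | S.Pairwise (fun s t => s⁻¹ * t ∉ U)} (by
    intro c hc hchain
    refine ⟨⋃₀ c, ?_, fun s hs => Set.subset_sUnion_of_mem hs⟩
    rw [mem_ofPred_eq, Set.pairwise_sUnion hchain.directedOn]
    exact fun a ha => hc ha)
  have hScov : ∀ x, ∃ s ∈ S, s⁻¹ * x ∈ U := by
    intro x
    by_contra hcon
    push Not at hcon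
    have hins : insert x S ∈ {S : Set G | S.Pairwise (fun s t => s⁻¹ * t ∉ U)} := by
      rw [mem_ofPred_eq]
      refine Set.Pairwise.insert hS.1 ?_
      intro s hs _
      refine ⟨fun h => ?_, hcon s hs⟩
      apply hcon s hs
      have := hUinv _ h
      simpa using this
    have hx : x ∈ S := hS.2 hins (Set.subset_insert x S) (Set.mem_insert x S)
    apply hcon x hx
    rw [inv_mul_cancel]
    exact mem_of_mem_nhds hU
  have hSκ : κ ≤ Cardinal.mk S := hbig S hScov
  -- small neighbourhoods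
  obtain ⟨V, hV, hV4⟩ := exists_nhds_one_split4 hU
  obtain ⟨O, hO, hOV, hOinv⟩ : ∃ O ∈ 𝓝 (1 : G), O ⊆ V ∧ ∀ x ∈ O, x⁻¹ ∈ V := by
    refine ⟨V ∩ V⁻¹, Filter.inter_mem hV (inv_mem_nhds_one G hV), Set.inter_subset_left, ?_⟩
    rintro x ⟨_, h2⟩
    exact h2
  obtain ⟨N, hN, hNc, hNO⟩ := exists_mem_nhds_isClosed_subset hO
  -- indices
  obtain ⟨K, hK⟩ : ∃ K : Type u, Cardinal.mk K = κ := ⟨κ.out, Cardinal.mk_out κ⟩
  have hcard : Cardinal.mk (ℕ × K) ≤ Cardinal.mk S := by
    have h1 : Cardinal.mk (ℕ × K) = κ := by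
      rw [Cardinal.mk_prod, hK, Cardinal.mk_nat, Cardinal.lift_aleph0, Cardinal.lift_uzero]
      exact Cardinal.aleph0_mul_eq hκ
    rw [h1]
    exact hSκ
  obtain ⟨e⟩ : Nonempty (ℕ × K ↪ S) := Cardinal.le_def _ _ |>.1 hcard
  obtain ⟨C, hCκ, hC⟩ := hcov N hN
  obtain ⟨i⟩ : Nonempty (C ↪ K) := by
    rw [← hK] at hCκ
    exact Cardinal.le_def _ _ |>.1 hCκ
  have hCne : Nonempty C := by
    obtain ⟨c, hc, _⟩ := hC 1
    exact ⟨⟨c, hc⟩⟩
  let c : K → G := fun k => ((Function.invFun i k : C) : G)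
  have hc : ∀ x, ∃ k, (c k)⁻¹ * x ∈ N := by
    intro x
    obtain ⟨a, ha, hx⟩ := hC x
    refine ⟨i ⟨a, ha⟩, ?_⟩
    have : Function.invFun i (i ⟨a, ha⟩) = ⟨a, ha⟩ := Function.leftInverse_invFun i.injective _
    simp only [c, this]
    exact hx
  let h : ℕ × K → G := fun p => ((e p : S) : G)
  have hh : ∀ p q : ℕ × K, (h p)⁻¹ * h q ∈ U → p = q := by
    intro p q hpq
    by_contra hne
    have : h p ≠ h q := by
      intro h'
      exact hne (e.injective (Subtype.ext h'))
    exact hS.1 (e p).2 (e q).2 this hpq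
  have key : ∀ (z y y' : G) (p q : ℕ × K), z⁻¹ * y ∈ O → z⁻¹ * y' ∈ O → (h p)⁻¹ * y ∈ N →
      (h q)⁻¹ * y' ∈ N → p = q := by
    intro z y y' p q h1 h2 h3 h4
    apply hh
    have := hV4 (hOV (hNO h3)) (hOinv _ h1) (hOV h2) (hOinv _ (hNO h4))
    have e1 : (h p)⁻¹ * y * (z⁻¹ * y)⁻¹ * (z⁻¹ * y') * ((h q)⁻¹ * y')⁻¹ = (h p)⁻¹ * h q := by
      group
    rwa [e1] at this
  refine ⟨K, fun j k => {y | (h (j, k))⁻¹ * y ∈ N}, fun j k y => c k * ((h (j, k))⁻¹ * y), ?_⟩
  refine ⟨?_, ?_, ?_, ?_, ?_⟩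
  · intro j k
    exact hNc.preimage (by fun_prop)
  · intro j k
    exact Continuous.continuousOn (by fun_prop)
  · intro j k j' k' y hy hy'
    have := key y y y (j, k) (j', k') (by simpa using mem_of_mem_nhds hO)
      (by simpa using mem_of_mem_nhds hO) hy hy'
    exact Prod.mk.injEq _ _ _ _ ▸ this
  · intro z
    refine ⟨{y | z⁻¹ * y ∈ O}, ?_, ?_⟩
    · have hct : ContinuousAt (fun y : G => z⁻¹ * y) z := by fun_prop
      apply hct.preimage_mem_nhds
      simpa using hO
    · apply Set.Subsingleton.finite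
      rintro p ⟨y, hy1, hy2⟩ q ⟨y', hy1', hy2'⟩
      exact key z y y' p q hy2 hy2' hy1 hy1'
  · intro j x
    obtain ⟨k, hk⟩ := hc x
    refine ⟨k, h (j, k) * ((c k)⁻¹ * x), ?_, ?_⟩
    · simpa using hk
    · simp

/-! ### Compact sets -/

theorem gamma_exists {X : Type u} [TopologicalSpace X] {g : ℕ → ℕ} {V : ℕ → ℕ → Set X}
    (hV : GammaG g V) (x : X) (n : ℕ) : ∃ m, x ∈ V n m := by
  by_contra hcon
  push Not at hcon
  have h1 : {m | x ∉ V n m} = univ := by
    ext m
    simp [hcon m]
  have h2 := hV.2 x n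
  rw [h1, Set.encard_univ, ENat.card_eq_top_of_infinite] at h2
  exact absurd h2 (by simp)

theorem sOneO_embedding {X : Type u} [TopologicalSpace X] {g : ℕ → ℕ} (h : SOneO X g)
    {A : Type w} [TopologicalSpace A] {e : A → X} (he : IsClosedEmbedding e) : SOneO A g := by
  intro V hV
  let W : ℕ → ℕ → Set X := fun n m => (e '' (V n m)ᶜ)ᶜ
  have hW : ∀ (x : A) n m, e x ∈ W n m ↔ x ∈ V n m := by
    intro x n m
    simp only [W, mem_compl_iff, mem_image, not_exists, not_and]
    constructor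
    · intro h1
      by_contra h2
      exact h1 x h2 rfl
    · intro h1 y hy hyx
      exact hy (he.injective hyx ▸ h1)
  obtain ⟨d, hd⟩ := h W (by
    refine ⟨fun n m => ?_, fun x n => ?_⟩
    · have : IsClosed (e '' (V n m)ᶜ : Set X) :=
        he.isClosedMap _ (hV.1 n m).isClosed_compl
      exact this.isOpen_compl
    · by_cases hx : ∃ a, e a = x
      · obtain ⟨a, rfl⟩ := hx
        have : {m | e a ∉ W n m} = {m | a ∉ V n m} := by
          ext m
          exact not_congr (hW a n m)
        rw [this]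
        exact hV.2 _ _
      · have : {m | x ∉ W n m} = ∅ := by
          ext m
          simp only [W, mem_ofPred_eq, mem_compl_iff, not_not, mem_empty_iff_false, iff_false,
            mem_image, not_exists, not_and]
          intro y _ hyx
          exact hx ⟨y, hyx⟩
        rw [this]
        simp)
  refine ⟨d, fun x => ?_⟩
  obtain ⟨n, hn⟩ := hd (e x)
  exact ⟨n, (hW x n (d n)).1 hn⟩

/-- The scheme of perfect sets. -/
theorem exists_scheme {Y : Type u} [TopologicalSpace Y] [CompactSpace Y] [T2Space Y]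
    {C : Set Y} (hC : Perfect C) (hCne : C.Nonempty) :
    ∃ D : List Bool → Set Y, (∀ s, IsClosed (D s)) ∧ (∀ s, (D s).Nonempty) ∧
      (∀ s b, D (b :: s) ⊆ D s) ∧ (∀ s, Disjoint (D (false :: s)) (D (true :: s))) := by
  let P := {C : Set Y // Perfect C ∧ C.Nonempty}
  have hsplit : ∀ p : P, ∃ q : Bool → P, (∀ b, (q b : Set Y) ⊆ p) ∧
      Disjoint (q false : Set Y) (q true : Set Y) := by
    intro p
    obtain ⟨C₀, C₁, ⟨h1, h2, h3⟩, ⟨h4, h5, h6⟩, h7⟩ := Perfect.splitting p.2.1 p.2.2
    refine ⟨fun b => if b then ⟨C₁, h4, h5⟩ else ⟨C₀, h1, h2⟩, ?_, ?_⟩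
    · intro b
      cases b
      · exact h3
      · exact h6
    · exact h7
  choose q hq1 hq2 using hsplit
  let D : List Bool → P := fun s => List.rec (motive := fun _ => P) ⟨C, hC, hCne⟩
    (fun b _ p => q p b) s
  exact ⟨fun s => (D s : Set Y), fun s => (D s).2.1.closed, fun s => (D s).2.2,
    fun s b => hq1 (D s) b, fun s => hq2 (D s)⟩

theorem isClopen_res (k : ℕ) : ∀ s : List Bool, IsClopen {z : ℕ → Bool | PiNat.res z k = s} := by
  induction k with
  | zero =>
    intro s
    by_cases hs : s = []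
    · have : {z : ℕ → Bool | PiNat.res z 0 = s} = univ := by
        ext z
        simp [hs]
      rw [this]
      exact isClopen_univ
    · have : {z : ℕ → Bool | PiNat.res z 0 = s} = ∅ := by
        ext z
        simp only [PiNat.res_zero, mem_ofPred_eq, mem_empty_iff_false, iff_false]
        exact fun h => hs h.symm
      rw [this]
      exact isClopen_empty
  | succ k ih =>
    intro s
    cases s with
    | nil =>
      have : {z : ℕ → Bool | PiNat.res z (k + 1) = []} = ∅ := by
        ext z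
        simp
      rw [this]
      exact isClopen_empty
    | cons b l =>
      have : {z : ℕ → Bool | PiNat.res z (k + 1) = b :: l} =
          (fun z : ℕ → Bool => z k) ⁻¹' {b} ∩ {z | PiNat.res z k = l} := by
        ext z
        simp
      rw [this]
      exact ((isClopen_discrete {b}).preimage (continuous_apply k)).inter (ih l)

/-- A compact Hausdorff space with a nonempty perfect subset fails `S_1(Γ_g, O)`. -/
theorem not_sOneO_of_perfect {Y : Type u} [TopologicalSpace Y] [CompactSpace Y] [T2Space Y]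
    {g : ℕ → ℕ} (hg : ∀ n, 1 ≤ g n)
    {C : Set Y} (hC : Perfect C) (hCne : C.Nonempty) : ¬ SOneO Y g := by
  intro h
  obtain ⟨D, hDc, hDn, hDs, hDd⟩ := exists_scheme hC hCne
  let Z : Set (Y × (ℕ → Bool)) := {p | ∀ k, p.1 ∈ D (PiNat.res p.2 k)}
  have hZ : IsClosed Z := by
    have : Z = ⋂ k : ℕ, ⋂ s : List Bool,
        ((Prod.snd ⁻¹' {z : ℕ → Bool | PiNat.res z k = s}ᶜ) ∪ (Prod.fst ⁻¹' (D s))) := by
      ext p
      simp only [Z, mem_ofPred_eq, mem_iInter, mem_union, mem_preimage, mem_compl_iff]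
      constructor
      · intro hp k s
        by_cases hs : PiNat.res p.2 k = s
        · right
          rw [← hs]
          exact hp k
        · left
          exact hs
      · intro hp k
        rcases hp k (PiNat.res p.2 k) with h1 | h1
        · exact absurd rfl h1
        · exact h1
    rw [this]
    refine isClosed_iInter fun k => isClosed_iInter fun s => IsClosed.union ?_ ?_
    · exact ((isClopen_res k s).isOpen.isClosed_compl).preimage continuous_snd
    · exact (hDc s).preimage continuous_fst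
  have huniq : ∀ y z z', (y, z) ∈ Z → (y, z') ∈ Z → z = z' := by
    intro y z z' hz hz'
    have hres : ∀ k, PiNat.res z k = PiNat.res z' k ∧ (z k = z' k) := by
      intro k
      have hstep : ∀ k, PiNat.res z k = PiNat.res z' k → z k = z' k := by
        intro k hk
        have h1 : y ∈ D (z k :: PiNat.res z k) := hz (k + 1)
        have h2 : y ∈ D (z' k :: PiNat.res z k) := by
          rw [hk]
          exact hz' (k + 1)
        have h3 := Set.disjoint_left.1 (hDd (PiNat.res z k))
        cases hzk : z k <;> cases hzk' : z' k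
        · rfl
        · rw [hzk] at h1
          rw [hzk'] at h2
          exact absurd h2 (h3 h1)
        · rw [hzk] at h1
          rw [hzk'] at h2
          exact absurd h1 (h3 h2)
        · rfl
      induction k with
      | zero => exact ⟨rfl, hstep 0 rfl⟩
      | succ k ih =>
        have : PiNat.res z (k + 1) = PiNat.res z' (k + 1) := by
          rw [PiNat.res_succ, PiNat.res_succ, ih.1, ih.2]
        exact ⟨this, hstep _ this⟩
    funext k
    exact (hres k).2
  let B : ℕ → ℕ → Set (ℕ → Bool) := fun n m =>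
    {z | (∀ i < m, z (Nat.pair n i) = true) ∧ z (Nat.pair n m) = false}
  have hB : ∀ n m, IsClosed (B n m) := by
    intro n m
    have : B n m = (⋂ i, ⋂ (_ : i < m), (fun z : ℕ → Bool => z (Nat.pair n i)) ⁻¹' {true}) ∩
        (fun z : ℕ → Bool => z (Nat.pair n m)) ⁻¹' {false} := by
      ext z
      simp [B]
    rw [this]
    refine IsClosed.inter (isClosed_iInter fun i => isClosed_iInter fun _ => ?_) ?_
    · exact isClosed_singleton.preimage (continuous_apply _)
    · exact isClosed_singleton.preimage (continuous_apply _)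
  let F : ℕ → ℕ → Set Y := fun n m => Prod.fst '' (Z ∩ Prod.snd ⁻¹' (B n m))
  have hF : ∀ n m, IsClosed (F n m) := fun n m =>
    isClosedMap_fst_of_compactSpace _ (hZ.inter ((hB n m).preimage continuous_snd))
  obtain ⟨d, hd⟩ := h (fun n m => (F n m)ᶜ) (by
    refine ⟨fun n m => (hF n m).isOpen_compl, fun y n => ?_⟩
    refine le_trans ?_ (show ((1 : ℕ) : ℕ∞) ≤ (g n : ℕ∞) by exact_mod_cast hg n)
    rw [Nat.cast_one, Set.encard_le_one_iff]
    intro m m' hm hm'
    simp only [mem_ofPred_eq, mem_compl_iff, not_not] at hm hm'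
    obtain ⟨⟨y1, z⟩, ⟨hz1, hz2⟩, rfl⟩ := hm
    obtain ⟨⟨y2, z'⟩, ⟨hz1', hz2'⟩, hy2⟩ := hm'
    simp only at hy2
    subst hy2
    have hzz := huniq _ _ _ hz1 hz1'
    subst hzz
    simp only [mem_preimage, B, mem_ofPred_eq] at hz2 hz2'
    rcases lt_trichotomy m m' with hlt | heq | hgt
    · have := hz2'.1 m hlt
      rw [hz2.2] at this
      exact absurd this (by simp)
    · exact heq
    · have := hz2.1 m' hgt
      rw [hz2'.2] at this
      exact absurd this (by simp))
  let z : ℕ → Bool := fun p => decide ((Nat.unpair p).2 < d (Nat.unpair p).1)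
  obtain ⟨y, hy⟩ := IsCompact.nonempty_iInter_of_sequence_nonempty_isCompact_isClosed
    (fun k => D (PiNat.res z k)) (fun k => hDs _ _) (fun k => hDn _) ((hDc _).isCompact)
    (fun k => hDc _)
  obtain ⟨n, hn⟩ := hd y
  apply hn
  refine ⟨(y, z), ⟨fun k => mem_iInter.1 hy k, ?_⟩, rfl⟩
  simp only [mem_preimage, B, mem_ofPred_eq, z, Nat.unpair_pair]
  exact ⟨fun i hi => by simpa using hi, by simp⟩

/-- `W` can be covered by finite blocks of a selection, starting anywhere. -/
def Block {Y : Type u} (V : ℕ → ℕ → Set Y) (W : Set Y) : Prop :=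
  ∀ N : ℕ, ∃ (N' : ℕ) (d : ℕ → ℕ), N ≤ N' ∧ ∀ y ∈ W, ∃ n, N ≤ n ∧ n < N' ∧ y ∈ V n (d n)

theorem Block.mono {Y : Type u} {V : ℕ → ℕ → Set Y} {W W' : Set Y} (h : Block V W)
    (hW : W' ⊆ W) : Block V W' := by
  intro N
  obtain ⟨N', d, h1, h2⟩ := h N
  exact ⟨N', d, h1, fun y hy => h2 y (hW hy)⟩

theorem Block.union {Y : Type u} {V : ℕ → ℕ → Set Y} {W W' : Set Y} (h : Block V W)
    (h' : Block V W') : Block V (W ∪ W') := by
  intro N
  obtain ⟨N₁, d₁, h1, h2⟩ := h N
  obtain ⟨N₂, d₂, h3, h4⟩ := h' N₁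
  refine ⟨N₂, fun n => if n < N₁ then d₁ n else d₂ n, h1.trans h3, ?_⟩
  rintro y (hy | hy)
  · obtain ⟨n, h5, h6, h7⟩ := h2 y hy
    refine ⟨n, h5, by omega, ?_⟩
    simp only [if_pos h6]
    exact h7
  · obtain ⟨n, h5, h6, h7⟩ := h4 y hy
    refine ⟨n, by omega, h6, ?_⟩
    have h8 : ¬ n < N₁ := by omega
    simp only [if_neg h8]
    exact h7

theorem block_univ {Y : Type u} [TopologicalSpace Y] [CompactSpace Y] [T2Space Y]
    (hscat : ∀ C : Set Y, Perfect C → ¬ C.Nonempty) {V : ℕ → ℕ → Set Y}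
    (hV : ∀ n m, IsOpen (V n m)) (hcov : ∀ y n, ∃ m, y ∈ V n m) : Block V univ := by
  let A : Set Y := {y | ∃ W ∈ 𝓝 y, Block V W}
  have hAo : IsOpen A := by
    rw [isOpen_iff_mem_nhds]
    rintro y ⟨W, hW, hB⟩
    obtain ⟨O, hOW, hO, hyO⟩ := mem_nhds_iff.1 hW
    refine mem_nhds_iff.2 ⟨O, ?_, hO, hyO⟩
    intro y' hy'
    exact ⟨W, Filter.mem_of_superset (hO.mem_nhds hy') hOW, hB⟩
  have hcomp : ∀ K : Set Y, IsCompact K → K ⊆ A → Block V K := by
    intro K hK hKA
    refine hK.induction_on ?_ ?_ ?_ ?_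
    · intro N
      exact ⟨N, fun _ => 0, le_refl _, fun y hy => absurd hy (by simp)⟩
    · exact fun s t hst ht => ht.mono hst
    · exact fun s t hs ht => hs.union ht
    · intro x hx
      obtain ⟨W, hW, hB⟩ := hKA hx
      exact ⟨W, mem_nhdsWithin_of_mem_nhds hW, hB⟩
  have hA : A = univ := by
    by_contra hne
    have hne' : (Aᶜ).Nonempty := by
      rwa [Set.nonempty_compl]
    have hnp : ¬ Perfect (Aᶜ) := fun hp => hscat _ hp hne'
    have hnp2 : ¬ Preperfect (Aᶜ) := fun hp => hnp ⟨hAo.isClosed_compl, hp⟩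
    rw [preperfect_iff_nhds] at hnp2
    push Not at hnp2
    obtain ⟨x, hx, U, hU, hiso⟩ := hnp2
    obtain ⟨K, hK, hKc, hKU⟩ := exists_mem_nhds_isClosed_subset hU
    apply hx
    refine ⟨K, hK, ?_⟩
    intro N
    obtain ⟨m, hm⟩ := hcov x N
    have hsub : K ∩ (V N m)ᶜ ⊆ A := by
      rintro y ⟨hy1, hy2⟩
      by_contra hyA
      have := hiso y ⟨hKU hy1, hyA⟩
      exact hy2 (this ▸ hm)
    obtain ⟨N', d, h1, h2⟩ := hcomp _ ((hKc.inter (hV N m).isClosed_compl).isCompact) hsub (N + 1)
    refine ⟨N', fun n => if n = N then m else d n, by omega, ?_⟩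
    intro y hy
    by_cases hyV : y ∈ V N m
    · refine ⟨N, le_refl _, by omega, ?_⟩
      simp only [if_true]
      exact hyV
    · obtain ⟨n, h3, h4, h5⟩ := h2 y ⟨hy, hyV⟩
      refine ⟨n, by omega, h4, ?_⟩
      have h6 : ¬ n = N := by omega
      simp only [if_neg h6]
      exact h5
  have : Block V A := hcomp A (by rw [hA]; exact isCompact_univ) (subset_refl _)
  rwa [hA] at this

theorem large_of_sigmaCompact {X : Type u} [TopologicalSpace X] [T2Space X]
    [SigmaCompactSpace X] {g : ℕ → ℕ} (hg : ∀ n, 1 ≤ g n) (h : SOneO X g) : SOneLarge X g := by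
  intro V hV
  have hblock : ∀ i, Block V (compactCovering X i) := by
    intro i N
    have hK : IsCompact (compactCovering X i) := isCompact_compactCovering X i
    have : CompactSpace (compactCovering X i) := isCompact_iff_compactSpace.1 hK
    have hS : SOneO (compactCovering X i) g := sOneO_embedding h hK.isClosed.isClosedEmbedding_subtypeVal
    have hsc : ∀ C : Set (compactCovering X i), Perfect C → ¬ C.Nonempty :=
      fun C hC hne => not_sOneO_of_perfect hg hC hne hS
    obtain ⟨N', d, h1, h2⟩ := block_univ hsc (V := fun n m => Subtype.val ⁻¹' (V n m))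
      (fun n m => (hV.1 n m).preimage continuous_subtype_val)
      (fun y n => gamma_exists hV y.1 n) N
    refine ⟨N', d, h1, fun y hy => ?_⟩
    obtain ⟨n, h3, h4, h5⟩ := h2 ⟨y, hy⟩ (mem_univ _)
    exact ⟨n, h3, h4, h5⟩
  choose nx dd hn1 hn2 using hblock
  let S : ℕ → ℕ := fun i => Nat.rec 0 (fun i s => nx i s + 1) i
  have hS : ∀ i, S (i + 1) = nx i (S i) + 1 := fun i => rfl
  have hSlt : ∀ i, S i < S (i + 1) := by
    intro i
    rw [hS]
    have := hn1 i (S i)
    omega
  have hSmono : StrictMono S := strictMono_nat_of_lt_succ hSlt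
  have hex : ∀ n, ∃ i, n < S (i + 1) := fun n =>
    ⟨n, lt_of_lt_of_le (Nat.lt_succ_self n) (hSmono.id_le (n + 1))⟩
  let bl : ℕ → ℕ := fun n => Nat.find (hex n)
  have hbl : ∀ i n, S i ≤ n → n < S (i + 1) → bl n = i := by
    intro i n h1 h2
    apply le_antisymm
    · exact Nat.find_min' (hex n) h2
    · by_contra hlt
      push Not at hlt
      have h3 : n < S (bl n + 1) := Nat.find_spec (hex n)
      have h4 : S (bl n + 1) ≤ S i := hSmono.monotone hlt
      omega
  refine ⟨fun n => dd (bl n) (S (bl n)) n, fun x => ?_⟩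
  rw [Set.infinite_iff_exists_gt]
  intro N
  have hx : x ∈ ⋃ n, compactCovering X n := by
    rw [iUnion_compactCovering]
    exact mem_univ x
  obtain ⟨j, hj⟩ := mem_iUnion.1 hx
  let i := max j (N + 1)
  have hxi : x ∈ compactCovering X i := compactCovering_subset X (le_max_left _ _) hj
  obtain ⟨n, h1, h2, h3⟩ := hn2 i (S i) x hxi
  have hbn : bl n = i := hbl i n h1 (by rw [hS]; omega)
  refine ⟨n, ?_, ?_⟩
  · show x ∈ V n (dd (bl n) (S (bl n)) n)
    rw [hbn]
    exact h3
  · have h4 : i ≤ S i := hSmono.id_le i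
    have h5 : N + 1 ≤ i := le_max_right _ _
    omega

theorem perfect_cantor : Perfect (univ : Set (ℕ → Bool)) := by
  refine ⟨isClosed_univ, ?_⟩
  rw [preperfect_iff_nhds]
  intro z _ U hU
  have ht : Tendsto (fun n : ℕ => Function.update z n (!z n)) atTop (𝓝 z) := by
    rw [tendsto_pi_nhds]
    intro i
    apply tendsto_const_nhds.congr'
    filter_upwards [eventually_gt_atTop i] with n hn
    rw [Function.update_of_ne (by omega)]
  obtain ⟨n, hn⟩ := (ht.eventually_mem hU).exists
  refine ⟨_, ⟨hn, mem_univ _⟩, fun h => ?_⟩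
  have := congrFun h n
  simp at this

theorem countable_of_polish {X : Type u} [TopologicalSpace X] [PolishSpace X] {g : ℕ → ℕ}
    (hg : ∀ n, 1 ≤ g n) (h : SOneO X g) : Countable X := by
  by_contra hcon
  have hunc : ¬ (univ : Set X).Countable := by
    rwa [Set.countable_univ_iff]
  obtain ⟨f, _, hf, hfi⟩ := IsClosed.exists_nat_bool_injection_of_not_countable
    (isClosed_univ (X := X)) hunc
  have he : IsClosedEmbedding f := hf.isClosedEmbedding hfi
  exact not_sOneO_of_perfect hg perfect_cantor univ_nonempty (sOneO_embedding h he)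

theorem large_of_countable {X : Type u} [TopologicalSpace X] [Countable X] {g : ℕ → ℕ} :
    SOneLarge X g := by
  intro V hV
  obtain ⟨e, he⟩ := exists_injective_nat X
  have hfin : ∀ (x : X) n, {m | x ∉ V n m}.Finite := fun x n =>
    Set.finite_of_encard_le_coe (hV.2 x n)
  have hex : ∀ n, ∃ m, ∀ x, e x ≤ n → x ∈ V n m := by
    intro n
    have h1 : {x | e x ≤ n}.Finite := by
      apply Set.Finite.of_finite_image _ he.injOn
      exact (Set.finite_Iic n).subset (by rintro _ ⟨x, hx, rfl⟩; exact hx)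
    have h2 : (⋃ x ∈ {x | e x ≤ n}, {m | x ∉ V n m}).Finite :=
      h1.biUnion (fun x _ => hfin x n)
    obtain ⟨m, hm⟩ := h2.exists_notMem
    refine ⟨m, fun x hx => ?_⟩
    by_contra hxm
    exact hm (mem_biUnion hx hxm)
  choose d hd using hex
  refine ⟨d, fun x => ?_⟩
  apply Set.Infinite.mono (s := Set.Ici (e x))
  · intro n hn
    exact hd n x hn
  · exact Set.Ici_infinite _

/-- For `g ≥ 1` the principles `S_1(Γ_g, O)` and `S_1(Γ_g, Fin-Λ)` agree on self-similar spaces,
on products with the countable discrete space, on topological groups for which some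
neighbourhood of `1` needs as many translates to cover the group as any other one, this number
being infinite (for instance on all groups that are `ω`-narrow and not precompact), on
`σ`-compact Hausdorff spaces, and on Polish spaces, where both mean that the space is
countable. -/
theorem result (g : ℕ → ℕ) (hg : ∀ n, 1 ≤ g n) :
    (∀ (X : Type u) [TopologicalSpace X] (K : Type w) (F : ℕ → K → Set X)
      (f : ℕ → K → X → X), SelfSimilar X F f → (SOneO X g ↔ SOneLarge X g)) ∧
    (∀ (X : Type u) [TopologicalSpace X], (SOneO (X × ℕ) g ↔ SOneLarge (X × ℕ) g) ∧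
      (SOneO (X × ℕ) g → SOneLarge X g)) ∧
    (∀ (G : Type u) [Group G] [TopologicalSpace G] [IsTopologicalGroup G] (κ : Cardinal.{u}),
      Cardinal.aleph0 ≤ κ → Narrow G κ → (SOneO G g ↔ SOneLarge G g)) ∧
    (∀ (X : Type u) [TopologicalSpace X] [T2Space X] [SigmaCompactSpace X],
      (SOneO X g ↔ SOneLarge X g)) ∧
    (∀ (X : Type u) [TopologicalSpace X] [PolishSpace X],
      (SOneO X g ↔ Countable X) ∧ (SOneLarge X g ↔ Countable X)) := by
  have back : ∀ (X : Type u) [TopologicalSpace X], SOneLarge X g → SOneO X g := by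
    intro X _ h V hV
    obtain ⟨d, hd⟩ := h V hV
    exact ⟨d, fun x => (hd x).nonempty⟩
  refine ⟨?_, ?_, ?_, ?_, ?_⟩
  · intro X _ K F f hS
    exact ⟨large_of_selfSimilar hg hS, back X⟩
  · intro X _
    have h1 : SOneO (X × ℕ) g → SOneLarge (X × ℕ) g :=
      large_of_selfSimilar hg (selfSimilar_prod X)
    refine ⟨⟨h1, back (X × ℕ)⟩, fun h V hV => ?_⟩
    obtain ⟨d, hd⟩ := h1 h (fun n m => Prod.fst ⁻¹' (V n m))
      ⟨fun n m => (hV.1 n m).preimage continuous_fst, fun x n => hV.2 x.1 n⟩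
    exact ⟨d, fun x => hd (x, 0)⟩
  · intro G _ _ _ κ hκ hG
    obtain ⟨K, F, f, hS⟩ := exists_selfSimilar_group G κ hκ hG
    exact ⟨large_of_selfSimilar hg hS, back G⟩
  · intro X _ _ _
    exact ⟨large_of_sigmaCompact hg, back X⟩
  · intro X _ _
    refine ⟨⟨countable_of_polish hg, fun h => ?_⟩,
      ⟨fun h => countable_of_polish hg (back X h), fun h => large_of_countable⟩⟩
    exact back X large_of_countable

end Pool.Agent.Results.MP_46bd4a_lc.SelfSimilarSpaces
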